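import Mathlib

/-! Project PRIMES / PW, block (4): the lower bound for triple convolutions of a function which is on average one on all
long intervals and at most a little larger than two. -/

set_option autoImplicit false
open Finset Complex

namespace Pool.Agent.Helper59.PW

/-- Abel summation -/
lemma abel (g : ℕ → ℝ) (p v : ℕ) (z : ℂ) (hz : ‖z‖ = 1) {B : ℝ}
    (h : ∀ m, p ≤ m → |∑ j ∈ Ico p m, g j| ≤ B) :
    ‖∑ j ∈ Ico p (p + v), (g j : ℂ) * z ^ j‖ ≤ B * (1 + v * ‖1 - z‖) := by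
  have key : ∑ j ∈ Ico p (p + v), (g j : ℂ) * z ^ j =
      ((∑ j ∈ Ico p (p + v), g j : ℝ) : ℂ) * z ^ (p + v) +
        ∑ i ∈ Ico p (p + v), ((∑ j ∈ Ico p (i + 1), g j : ℝ) : ℂ) * (z ^ i * (1 - z)) := by
    induction v with
    | zero => simp
    | succ v ih =>
      rw [← add_assoc, sum_Ico_succ_top (by omega), ih, sum_Ico_succ_top (by omega : p ≤ p + v),
        sum_Ico_succ_top (by omega : p ≤ p + v)]
      push_cast
      rw [sum_Ico_succ_top (by omega : p ≤ p + v)]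
      ring
  rw [key]
  refine (norm_add_le _ _).trans ?_
  have h1 : ‖((∑ j ∈ Ico p (p + v), g j : ℝ) : ℂ) * z ^ (p + v)‖ ≤ B := by
    rw [norm_mul, norm_pow, hz, one_pow, mul_one, Complex.norm_real]
    exact h _ (by omega)
  have h2 : ‖∑ i ∈ Ico p (p + v), ((∑ j ∈ Ico p (i + 1), g j : ℝ) : ℂ) * (z ^ i * (1 - z))‖ ≤
      v * (B * ‖1 - z‖) := by
    refine (norm_sum_le_of_le (n := fun _ => B * ‖1 - z‖) _ fun i hi => ?_).trans ?_
    · rw [norm_mul, norm_mul, norm_pow, hz, one_pow, one_mul, Complex.norm_real]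
      rw [mem_Ico] at hi
      exact mul_le_mul_of_nonneg_right (h _ (by omega)) (norm_nonneg _)
    · rw [sum_const, Nat.card_Ico, nsmul_eq_mul, Nat.add_sub_cancel_left]
  calc _ ≤ B + v * (B * ‖1 - z‖) := add_le_add h1 h2
    _ = B * (1 + v * ‖1 - z‖) := by ring

lemma geom (p v : ℕ) (y : ℂ) (hy : ‖y‖ = 1) (h1 : y ≠ 1) :
    ‖∑ j ∈ Ico p (p + v), y ^ j‖ ≤ 2 / ‖1 - y‖ := by
  rw [geom_sum_Ico h1 (by omega), norm_div, norm_sub_rev y 1]
  refine div_le_div_of_nonneg_right ?_ (norm_nonneg _)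
  refine (norm_sub_le _ _).trans ?_
  rw [norm_pow, norm_pow, hy, one_pow, one_pow]
  norm_num

lemma re_sq {y : ℂ} (hy : ‖y‖ = 1) : y.re ^ 2 = (1 + (y ^ 2).re) / 2 := by
  have h1 : y.re ^ 2 + y.im ^ 2 = 1 := by
    have := Complex.sq_norm y
    rw [hy, Complex.normSq_apply] at this
    nlinarith
  have h2 : (y ^ 2).re = y.re ^ 2 - y.im ^ 2 := by
    rw [sq, Complex.mul_re]
    ring
  rw [h2]
  linarith

lemma l2 (g : ℕ → ℝ) (p v : ℕ) (z : ℂ) (hz : ‖z‖ = 1) {a : ℝ} (_ha : 0 ≤ a) (hg : ∀ j, |g j| ≤ a) :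
    ‖∑ j ∈ Ico p (p + v), (g j : ℂ) * z ^ j‖ ^ 2 ≤
      a ^ 2 * v * (v / 2 + ‖∑ j ∈ Ico p (p + v), (z ^ 2) ^ j‖ / 2) := by
  set A := ∑ j ∈ Ico p (p + v), (g j : ℂ) * z ^ j with hA
  rcases eq_or_ne A 0 with h0 | h0
  · rw [h0, norm_zero, zero_pow two_ne_zero]
    positivity
  obtain ⟨u, hu, huA⟩ : ∃ u : ℂ, ‖u‖ = 1 ∧ u * A = (‖A‖ : ℂ) := by
    have hn : ‖A‖ ≠ 0 := norm_ne_zero_iff.2 h0
    refine ⟨(starRingEnd ℂ) A / ‖A‖, ?_, ?_⟩
    · rw [norm_div, Complex.norm_conj, Complex.norm_real, norm_norm, div_self hn]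
    · rw [div_mul_eq_mul_div, mul_comm, Complex.mul_conj, Complex.normSq_eq_norm_sq]
      rw [div_eq_iff (by exact_mod_cast hn)]
      push_cast
      ring
  have h1 : ‖A‖ ≤ a * ∑ j ∈ Ico p (p + v), |(u * z ^ j).re| := by
    have e : ‖A‖ = ∑ j ∈ Ico p (p + v), g j * (u * z ^ j).re := by
      have := congrArg Complex.re huA
      rw [Complex.ofReal_re, hA, mul_sum, Complex.re_sum] at this
      rw [← this]
      refine sum_congr rfl fun j _ => ?_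
      rw [show u * ((g j : ℂ) * z ^ j) = (g j : ℂ) * (u * z ^ j) by ring, Complex.re_ofReal_mul]
    rw [e, mul_sum]
    refine sum_le_sum fun j _ => ?_
    refine (le_abs_self _).trans ?_
    rw [abs_mul]
    exact mul_le_mul_of_nonneg_right (hg j) (abs_nonneg _)
  have h2 : (∑ j ∈ Ico p (p + v), |(u * z ^ j).re|) ^ 2 ≤
      v * ∑ j ∈ Ico p (p + v), |(u * z ^ j).re| ^ 2 := by
    have := sq_sum_le_card_mul_sum_sq (s := Ico p (p + v)) (f := fun j => |(u * z ^ j).re|)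
    rwa [Nat.card_Ico, Nat.add_sub_cancel_left] at this
  have h3 : ∑ j ∈ Ico p (p + v), |(u * z ^ j).re| ^ 2 ≤
      v / 2 + ‖∑ j ∈ Ico p (p + v), (z ^ 2) ^ j‖ / 2 := by
    have e : ∀ j ∈ Ico p (p + v), |(u * z ^ j).re| ^ 2 = 1 / 2 + (u ^ 2 * (z ^ 2) ^ j).re / 2 := by
      intro j _
      rw [sq_abs, re_sq (by rw [norm_mul, norm_pow, hu, hz, one_pow, one_mul])]
      rw [show (u * z ^ j) ^ 2 = u ^ 2 * (z ^ 2) ^ j by rw [mul_pow, ← pow_mul, ← pow_mul, mul_comm j 2]]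
      ring
    rw [sum_congr rfl e, sum_add_distrib, sum_const, Nat.card_Ico, Nat.add_sub_cancel_left, ← sum_div,
      ← Complex.re_sum, ← mul_sum, nsmul_eq_mul]
    have : (u ^ 2 * ∑ j ∈ Ico p (p + v), (z ^ 2) ^ j).re ≤ ‖∑ j ∈ Ico p (p + v), (z ^ 2) ^ j‖ := by
      refine (Complex.re_le_norm _).trans ?_
      rw [norm_mul, norm_pow, hu, one_pow, one_mul]
    linarith
  have hs : 0 ≤ ∑ j ∈ Ico p (p + v), |(u * z ^ j).re| := sum_nonneg fun _ _ => abs_nonneg _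
  calc ‖A‖ ^ 2 ≤ (a * ∑ j ∈ Ico p (p + v), |(u * z ^ j).re|) ^ 2 := pow_le_pow_left₀ (norm_nonneg _) h1 2
    _ = a ^ 2 * (∑ j ∈ Ico p (p + v), |(u * z ^ j).re|) ^ 2 := by ring
    _ ≤ a ^ 2 * (v * (v / 2 + ‖∑ j ∈ Ico p (p + v), (z ^ 2) ^ j‖ / 2)) := by
        refine mul_le_mul_of_nonneg_left (h2.trans ?_) (by positivity)
        exact mul_le_mul_of_nonneg_left h3 (by positivity)
    _ = _ := by ring

/-- the supremum -/
lemma sup_le (g : ℕ → ℝ) (p v : ℕ) (z : ℂ) (hz : ‖z‖ = 1) {a B : ℝ} (ha : 1 ≤ a) (hg : ∀ j, |g j| ≤ a)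
    (h : ∀ m, p ≤ m → |∑ j ∈ Ico p m, g j| ≤ B) (hB : B ≤ v / 1000) (hv : 100 ≤ v) :
    ‖1 + z‖ * ‖∑ j ∈ Ico p (p + v), (g j : ℂ) * z ^ j‖ ≤ 10 / 7 * a * v := by
  have hv' : (100 : ℝ) ≤ v := by exact_mod_cast hv
  have hv0 : (0 : ℝ) < v := by linarith
  set A := ∑ j ∈ Ico p (p + v), (g j : ℂ) * z ^ j with hA
  have h2 : ‖1 + z‖ ≤ 2 := by
    refine (norm_add_le _ _).trans ?_
    rw [norm_one, hz]
    norm_num
  have hn1 := norm_nonneg (1 + z)
  have hn2 := norm_nonneg (1 - z)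
  have hnA := norm_nonneg A
  have hB0 : 0 ≤ B := (abs_nonneg _).trans (h p le_rfl)
  have e2 : ‖1 - z ^ 2‖ = ‖1 - z‖ * ‖1 + z‖ := by
    rw [← norm_mul]
    congr 1
    ring
  rcases le_or_gt (100 / (v : ℝ)) ‖1 - z ^ 2‖ with h1 | h1
  · have hne : z ^ 2 ≠ 1 := by
      intro h0
      rw [h0, sub_self, norm_zero] at h1
      have : 0 < 100 / (v : ℝ) := by positivity
      linarith
    have h3 := geom p v (z ^ 2) (by rw [norm_pow, hz, one_pow]) hne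
    have h4 : 2 / ‖1 - z ^ 2‖ ≤ v / 50 := by
      have h0 : 0 < 100 / (v : ℝ) := by positivity
      calc 2 / ‖1 - z ^ 2‖ ≤ 2 / (100 / (v : ℝ)) := div_le_div_of_nonneg_left (by norm_num) h0 h1
        _ = v / 50 := by
          field_simp
          norm_num
    have h5 := l2 g p v z hz (by linarith) hg
    rw [← hA] at h5
    have h6 : ‖A‖ ^ 2 ≤ (5 / 7 * a * v) ^ 2 := by
      refine h5.trans ?_
      have : a ^ 2 * v * (v / 2 + ‖∑ j ∈ Ico p (p + v), (z ^ 2) ^ j‖ / 2) ≤ a ^ 2 * v * (v / 2 + v / 50 / 2) := by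
        refine mul_le_mul_of_nonneg_left ?_ (by positivity)
        linarith
      refine this.trans ?_
      have h7 : 0 ≤ a ^ 2 * (v : ℝ) ^ 2 := by positivity
      nlinarith
    have h7 : ‖A‖ ≤ 5 / 7 * a * v := by
      have h8 := abs_le_of_sq_le_sq h6 (by positivity)
      rwa [abs_of_nonneg hnA] at h8
    calc ‖1 + z‖ * ‖A‖ ≤ 2 * (5 / 7 * a * v) := mul_le_mul h2 h7 hnA (by norm_num)
      _ = _ := by ring
  · have h3 : ‖1 - z‖ * ‖1 + z‖ * v < 100 := by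
      rw [← e2]
      rwa [lt_div_iff₀ hv0] at h1
    have h4 : 2 ≤ ‖1 - z‖ + ‖1 + z‖ := by
      have : ‖(1 - z) + (1 + z)‖ ≤ ‖1 - z‖ + ‖1 + z‖ := norm_add_le _ _
      rw [show (1 - z) + (1 + z) = 2 by ring] at this
      simpa using this
    have hAv : ‖A‖ ≤ a * v := by
      rw [hA]
      refine (norm_sum_le_of_le (n := fun _ => a) _ fun i hi => ?_).trans ?_
      · rw [norm_mul, norm_pow, hz, one_pow, mul_one, Complex.norm_real]
        exact hg i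
      · rw [sum_const, Nat.card_Ico, nsmul_eq_mul, Nat.add_sub_cancel_left, mul_comm]
    rcases le_or_gt 1 ‖1 - z‖ with h5 | h5
    · have h6 : ‖1 + z‖ * v ≤ 100 := by nlinarith [mul_nonneg hn1 hv0.le]
      calc ‖1 + z‖ * ‖A‖ ≤ ‖1 + z‖ * (a * v) := mul_le_mul_of_nonneg_left hAv hn1
        _ = a * (‖1 + z‖ * v) := by ring
        _ ≤ a * 100 := mul_le_mul_of_nonneg_left h6 (by linarith)
        _ ≤ 10 / 7 * a * v := by nlinarith
    · have h6 : 1 ≤ ‖1 + z‖ := by linarith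
      have h7 : v * ‖1 - z‖ ≤ 100 := by nlinarith [mul_nonneg hn2 hv0.le]
      have h8 := abel g p v z hz h
      rw [← hA] at h8
      have h9 : ‖A‖ ≤ B * 101 := h8.trans (mul_le_mul_of_nonneg_left (by linarith) hB0)
      calc ‖1 + z‖ * ‖A‖ ≤ 2 * (B * 101) := mul_le_mul h2 h9 hnA (by norm_num)
        _ ≤ 10 / 7 * a * v := by nlinarith

/-- trigonometric polynomials on `ZMod P` -/
noncomputable def tp (P : ℕ) [NeZero P] (g : ℕ → ℝ) (s : Finset ℕ) (x : ZMod P) : ℂ :=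
  ∑ j ∈ s, (g j : ℂ) * (ZMod.stdAddChar x) ^ j

lemma psi_pow {P : ℕ} [NeZero P] (x : ZMod P) (j : ℕ) :
    (ZMod.stdAddChar x : ℂ) ^ j = ZMod.stdAddChar (x * (j : ZMod P)) := by
  rw [← AddChar.map_nsmul_eq_pow, nsmul_eq_mul, mul_comm]

lemma cast_iff {P i j : ℕ} [NeZero P] (hi : i < P) (hj : j < P) : ((i : ZMod P) = j) ↔ i = j := by
  rw [ZMod.natCast_eq_natCast_iff', Nat.mod_eq_of_lt hi, Nat.mod_eq_of_lt hj]

lemma pars (P : ℕ) [NeZero P] (g : ℕ → ℝ) (s : Finset ℕ) (hs : ∀ j ∈ s, j < P) :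
    ∑ x : ZMod P, ‖tp P g s x‖ ^ 2 = P * ∑ j ∈ s, g j ^ 2 := by
  have e : ∀ x : ZMod P, ((‖tp P g s x‖ ^ 2 : ℝ) : ℂ) =
      ∑ i ∈ s, ∑ j ∈ s, ((g i * g j : ℝ) : ℂ) * ZMod.stdAddChar (x * ((i : ZMod P) - (j : ZMod P))) := by
    intro x
    rw [Complex.ofReal_pow, ← Complex.mul_conj']
    unfold tp
    rw [map_sum, sum_mul_sum]
    refine sum_congr rfl fun i _ => sum_congr rfl fun j _ => ?_
    rw [map_mul, Complex.conj_ofReal, psi_pow, psi_pow, ← AddChar.map_neg_eq_conj]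
    rw [show (g i : ℂ) * ZMod.stdAddChar (x * (i : ZMod P)) * ((g j : ℂ) * ZMod.stdAddChar (-(x * (j : ZMod P)))) =
      ((g i * g j : ℝ) : ℂ) * (ZMod.stdAddChar (x * (i : ZMod P)) * ZMod.stdAddChar (-(x * (j : ZMod P)))) by
        push_cast
        ring]
    rw [← AddChar.map_add_eq_mul]
    congr 2
    ring
  have h1 : ((∑ x : ZMod P, ‖tp P g s x‖ ^ 2 : ℝ) : ℂ) = ((P * ∑ j ∈ s, g j ^ 2 : ℝ) : ℂ) := by
    rw [Complex.ofReal_sum, sum_congr rfl fun x _ => e x, sum_comm]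
    have h2 : ∀ i ∈ s, ∑ x : ZMod P, ∑ j ∈ s, ((g i * g j : ℝ) : ℂ) * ZMod.stdAddChar (x * ((i : ZMod P) - (j : ZMod P))) =
        ((P * g i ^ 2 : ℝ) : ℂ) := by
      intro i hi
      rw [sum_comm, sum_eq_single i]
      · rw [← mul_sum, AddChar.sum_mulShift _ (ZMod.isPrimitive_stdAddChar P), if_pos (sub_self _), ZMod.card]
        push_cast
        ring
      · intro j hj hij
        rw [← mul_sum, AddChar.sum_mulShift _ (ZMod.isPrimitive_stdAddChar P), if_neg, Nat.cast_zero, mul_zero]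
        rw [sub_eq_zero, cast_iff (hs i hi) (hs j hj)]
        exact fun h => hij h.symm
      · exact fun h => absurd hi h
    rw [sum_congr rfl h2]
    push_cast
    rw [mul_sum]
  exact_mod_cast h1

lemma triple (P : ℕ) [NeZero P] (g : ℕ → ℝ) (V W U : Finset ℕ) (N : ℕ) (hN : N < P)
    (hs : ∀ i ∈ V, ∀ j ∈ W, ∀ c ∈ U, i + j + c < P)
    (hU : ∀ i ∈ V, ∀ j ∈ W, i + j ≤ N ∧ N - i - j ∈ U) :
    (P : ℂ) * ((∑ i ∈ V, ∑ j ∈ W, g i * g j * g (N - i - j) : ℝ) : ℂ) =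
      ∑ x : ZMod P, tp P g V x * tp P g W x * tp P g U x * ZMod.stdAddChar (x * (-(N : ZMod P))) := by
  have e : ∀ x : ZMod P, tp P g V x * tp P g W x * tp P g U x * ZMod.stdAddChar (x * (-(N : ZMod P))) =
      ∑ i ∈ V, ∑ j ∈ W, ∑ c ∈ U, ((g i * g j * g c : ℝ) : ℂ) *
        ZMod.stdAddChar (x * (((i + j + c : ℕ) : ZMod P) - (N : ZMod P))) := by
    intro x
    unfold tp
    rw [sum_mul_sum, sum_mul, sum_mul]
    refine sum_congr rfl fun i _ => ?_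
    rw [sum_mul_sum, sum_mul]
    refine sum_congr rfl fun j _ => ?_
    rw [sum_mul]
    refine sum_congr rfl fun c _ => ?_
    rw [psi_pow, psi_pow, psi_pow]
    rw [show (g i : ℂ) * ZMod.stdAddChar (x * (i : ZMod P)) * ((g j : ℂ) * ZMod.stdAddChar (x * (j : ZMod P))) *
        ((g c : ℂ) * ZMod.stdAddChar (x * (c : ZMod P))) * ZMod.stdAddChar (x * (-(N : ZMod P))) =
      ((g i * g j * g c : ℝ) : ℂ) * (ZMod.stdAddChar (x * (i : ZMod P)) * ZMod.stdAddChar (x * (j : ZMod P)) *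
        ZMod.stdAddChar (x * (c : ZMod P)) * ZMod.stdAddChar (x * (-(N : ZMod P)))) by
        push_cast
        ring]
    rw [← AddChar.map_add_eq_mul, ← AddChar.map_add_eq_mul, ← AddChar.map_add_eq_mul]
    congr 2
    push_cast
    ring
  have sw : ∀ F : ZMod P → ℕ → ℕ → ℕ → ℂ, ∑ x : ZMod P, ∑ i ∈ V, ∑ j ∈ W, ∑ c ∈ U, F x i j c =
      ∑ i ∈ V, ∑ j ∈ W, ∑ c ∈ U, ∑ x : ZMod P, F x i j c := by
    intro F
    rw [sum_comm]
    refine sum_congr rfl fun i _ => ?_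
    rw [sum_comm]
    refine sum_congr rfl fun j _ => ?_
    rw [sum_comm]
  rw [sum_congr rfl fun x _ => e x, sw, Complex.ofReal_sum, mul_sum]
  refine sum_congr rfl fun i hi => ?_
  rw [Complex.ofReal_sum, mul_sum]
  refine sum_congr rfl fun j hj => ?_
  obtain ⟨h1, h2⟩ := hU i hi j hj
  rw [sum_eq_single (N - i - j)]
  · rw [← mul_sum, AddChar.sum_mulShift _ (ZMod.isPrimitive_stdAddChar P), if_pos, ZMod.card]
    · ring
    · rw [show i + j + (N - i - j) = N by omega, sub_self]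
  · intro c hc hne
    rw [← mul_sum, AddChar.sum_mulShift _ (ZMod.isPrimitive_stdAddChar P), if_neg, Nat.cast_zero, mul_zero]
    rw [sub_eq_zero, cast_iff (hs i hi j hj c hc) hN]
    intro h
    exact hne (by omega)
  · exact fun h => absurd h2 h

/-- the cubic term -/
lemma cubic (g : ℕ → ℝ) (p q n v w : ℕ) {B : ℝ} (hv : 100 ≤ v) (hw : 20 * v ≤ w) (hn : p + v + q + w ≤ n)
    (hB : B ≤ v / 1000) (hg : ∀ j, |g j| ≤ 1001 / 1000) (h : ∀ m m', m ≤ m' → |∑ j ∈ Ico m m', g j| ≤ B) :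
    |∑ i ∈ Ico p (p + v), ∑ j ∈ Ico q (q + w), g i * g j * (g (n - i - j) + g (n + 1 - i - j))| ≤
      147 / 100 * (v * w) := by
  set P : ℕ := 3 * n + 10 with hP
  have : NeZero P := ⟨by omega⟩
  have hP0 : (0 : ℝ) < P := by
    rw [hP]
    positivity
  set u0 : ℕ := n + 2 - (p + v + q + w) with hu0
  set G : ℝ := ∑ i ∈ Ico p (p + v), ∑ j ∈ Ico q (q + w), g i * g j * (g (n - i - j) + g (n + 1 - i - j)) with hG
  have hv' : (100 : ℝ) ≤ v := by exact_mod_cast hv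
  have hw' : 20 * (v : ℝ) ≤ w := by exact_mod_cast hw
  have t0 := triple P g (Ico p (p + v)) (Ico q (q + w)) (Ico u0 (u0 + (v + w))) n (by omega)
    (by
      intro i hi j hj c hc
      rw [mem_Ico] at hi hj hc
      omega)
    (by
      intro i hi j hj
      rw [mem_Ico] at hi hj ⊢
      omega)
  have t1 := triple P g (Ico p (p + v)) (Ico q (q + w)) (Ico u0 (u0 + (v + w))) (n + 1) (by omega)
    (by
      intro i hi j hj c hc
      rw [mem_Ico] at hi hj hc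
      omega)
    (by
      intro i hi j hj
      rw [mem_Ico] at hi hj ⊢
      omega)
  have hsum : (P : ℂ) * (G : ℂ) = ∑ x : ZMod P, tp P g (Ico p (p + v)) x * tp P g (Ico q (q + w)) x *
      tp P g (Ico u0 (u0 + (v + w))) x *
        (ZMod.stdAddChar (x * (-(n : ZMod P))) + ZMod.stdAddChar (x * (-((n + 1 : ℕ) : ZMod P)))) := by
    have e : G = (∑ i ∈ Ico p (p + v), ∑ j ∈ Ico q (q + w), g i * g j * g (n - i - j)) +
        ∑ i ∈ Ico p (p + v), ∑ j ∈ Ico q (q + w), g i * g j * g (n + 1 - i - j) := by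
      rw [hG, ← sum_add_distrib]
      refine sum_congr rfl fun i _ => ?_
      rw [← sum_add_distrib]
      refine sum_congr rfl fun j _ => ?_
      ring
    rw [e, Complex.ofReal_add, mul_add, t0, t1, ← sum_add_distrib]
    refine sum_congr rfl fun x _ => ?_
    ring
  have hfac : ∀ x : ZMod P, ‖(ZMod.stdAddChar (x * (-(n : ZMod P))) + ZMod.stdAddChar (x * (-((n + 1 : ℕ) : ZMod P))) : ℂ)‖ =
      ‖1 + (ZMod.stdAddChar x : ℂ)‖ := by
    intro x
    have e : x * (-(n : ZMod P)) = x * (-((n + 1 : ℕ) : ZMod P)) + x := by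
      push_cast
      ring
    rw [e, AddChar.map_add_eq_mul,
      show (ZMod.stdAddChar (x * (-((n + 1 : ℕ) : ZMod P))) : ℂ) * ZMod.stdAddChar x + ZMod.stdAddChar (x * (-((n + 1 : ℕ) : ZMod P))) =
        ZMod.stdAddChar (x * (-((n + 1 : ℕ) : ZMod P))) * (1 + ZMod.stdAddChar x) by ring, norm_mul, AddChar.norm_apply, one_mul]
  have hle : ∀ x : ZMod P, ‖1 + (ZMod.stdAddChar x : ℂ)‖ * ‖tp P g (Ico p (p + v)) x‖ ≤ 10 / 7 * (1001 / 1000) * v := by
    intro x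
    exact sup_le g p v (ZMod.stdAddChar x) (AddChar.norm_apply _ _) (by norm_num) hg (fun m hm => h p m hm) hB hv
  have hgsq : ∀ s : Finset ℕ, ∑ j ∈ s, g j ^ 2 ≤ (1001 / 1000 : ℝ) ^ 2 * s.card := by
    intro s
    refine (sum_le_card_nsmul s _ ((1001 / 1000 : ℝ) ^ 2) fun j _ => ?_).trans_eq ?_
    · rw [← sq_abs]
      exact pow_le_pow_left₀ (abs_nonneg _) (hg j) 2
    · rw [nsmul_eq_mul, mul_comm]
  have hW := pars P g (Ico q (q + w)) (by
    intro j hj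
    rw [mem_Ico] at hj
    omega)
  have hU := pars P g (Ico u0 (u0 + (v + w))) (by
    intro j hj
    rw [mem_Ico] at hj
    omega)
  have h1 : (P : ℝ) * |G| ≤ 10 / 7 * (1001 / 1000) * v *
      ∑ x : ZMod P, ‖tp P g (Ico q (q + w)) x‖ * ‖tp P g (Ico u0 (u0 + (v + w))) x‖ := by
    have e : (P : ℝ) * |G| = ‖(P : ℂ) * (G : ℂ)‖ := by
      rw [norm_mul, Complex.norm_natCast, Complex.norm_real, Real.norm_eq_abs]
    rw [e, hsum, mul_sum]
    refine norm_sum_le_of_le _ fun x _ => ?_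
    rw [norm_mul, norm_mul, norm_mul, hfac]
    calc ‖tp P g (Ico p (p + v)) x‖ * ‖tp P g (Ico q (q + w)) x‖ * ‖tp P g (Ico u0 (u0 + (v + w))) x‖ *
          ‖1 + (ZMod.stdAddChar x : ℂ)‖ = (‖1 + (ZMod.stdAddChar x : ℂ)‖ * ‖tp P g (Ico p (p + v)) x‖) *
            (‖tp P g (Ico q (q + w)) x‖ * ‖tp P g (Ico u0 (u0 + (v + w))) x‖) := by ring
      _ ≤ _ := mul_le_mul_of_nonneg_right (hle x) (by positivity)
  have h2 : ∑ x : ZMod P, ‖tp P g (Ico q (q + w)) x‖ * ‖tp P g (Ico u0 (u0 + (v + w))) x‖ ≤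
      P * ((1001 / 1000 : ℝ) ^ 2 * (10247 / 10000 * w)) := by
    refine (Real.sum_mul_le_sqrt_mul_sqrt _ _ _).trans ?_
    rw [hW, hU, ← Real.sqrt_mul (by
      refine mul_nonneg hP0.le (sum_nonneg fun _ _ => sq_nonneg _))]
    refine Real.sqrt_le_iff.2 ⟨by positivity, ?_⟩
    have a1 := hgsq (Ico q (q + w))
    have a2 := hgsq (Ico u0 (u0 + (v + w)))
    rw [Nat.card_Ico, Nat.add_sub_cancel_left] at a1 a2
    push_cast at a2
    have b1 : 0 ≤ ∑ j ∈ Ico q (q + w), g j ^ 2 := sum_nonneg fun _ _ => sq_nonneg _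
    have b2 : 0 ≤ ∑ j ∈ Ico u0 (u0 + (v + w)), g j ^ 2 := sum_nonneg fun _ _ => sq_nonneg _
    have a3 : (∑ j ∈ Ico q (q + w), g j ^ 2) * (∑ j ∈ Ico u0 (u0 + (v + w)), g j ^ 2) ≤
        ((1001 / 1000 : ℝ) ^ 2 * w) * ((1001 / 1000 : ℝ) ^ 2 * (v + w)) := mul_le_mul a1 a2 b2 (by positivity)
    have hw0 : (0 : ℝ) ≤ w := by positivity
    have a4 : (w : ℝ) * (v + w) ≤ (10247 / 10000 * w) ^ 2 := by nlinarith
    calc (P : ℝ) * (∑ j ∈ Ico q (q + w), g j ^ 2) * (P * ∑ j ∈ Ico u0 (u0 + (v + w)), g j ^ 2) =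
          (P : ℝ) ^ 2 * ((∑ j ∈ Ico q (q + w), g j ^ 2) * (∑ j ∈ Ico u0 (u0 + (v + w)), g j ^ 2)) := by
            ring
      _ ≤ (P : ℝ) ^ 2 * (((1001 / 1000 : ℝ) ^ 2 * w) * ((1001 / 1000 : ℝ) ^ 2 * (v + w))) :=
          mul_le_mul_of_nonneg_left a3 (by positivity)
      _ = (P : ℝ) ^ 2 * ((1001 / 1000 : ℝ) ^ 2) ^ 2 * ((w : ℝ) * (v + w)) := by ring
      _ ≤ (P : ℝ) ^ 2 * ((1001 / 1000 : ℝ) ^ 2) ^ 2 * (10247 / 10000 * w) ^ 2 :=
          mul_le_mul_of_nonneg_left a4 (by positivity)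
      _ = _ := by ring
  have h3 : (P : ℝ) * |G| ≤ P * (147 / 100 * (v * w)) := by
    refine h1.trans ?_
    calc 10 / 7 * (1001 / 1000) * (v : ℝ) *
          ∑ x : ZMod P, ‖tp P g (Ico q (q + w)) x‖ * ‖tp P g (Ico u0 (u0 + (v + w))) x‖ ≤
          10 / 7 * (1001 / 1000) * v * (P * ((1001 / 1000 : ℝ) ^ 2 * (10247 / 10000 * w))) :=
            mul_le_mul_of_nonneg_left h2 (by positivity)
      _ = P * (10 / 7 * (1001 / 1000) * (1001 / 1000 : ℝ) ^ 2 * (10247 / 10000) * (v * w)) := by ring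
      _ ≤ P * (147 / 100 * (v * w)) := by
          refine mul_le_mul_of_nonneg_left (mul_le_mul_of_nonneg_right (by norm_num) (by positivity)) hP0.le
  exact le_of_mul_le_mul_left h3 hP0

/-- **Block (4)**: the triple convolution of a function between `0` and `2001/1000` with mean one on all long intervals. -/
theorem four : ∃ η : ℝ, 0 < η ∧ ∃ v₀ : ℕ, ∀ (f : ℕ → ℝ) (p q n v w : ℕ) (B : ℝ), v₀ ≤ v → 20 * v ≤ w →
    p + v + q + w ≤ n → B ≤ η * v → (∀ j, 0 ≤ f j) → (∀ j, f j ≤ 2001 / 1000) →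
    (∀ m m', m ≤ m' → |∑ j ∈ Ico m m', (f j - 1)| ≤ B) →
    (v * w : ℝ) / 2 ≤ ∑ i ∈ Ico p (p + v), ∑ j ∈ Ico q (q + w), f i * f j * (f (n - i - j) + f (n + 1 - i - j)) := by
  refine ⟨1 / 1000, by norm_num, 100, fun f p q n v w B hv hw hn hB hf0 hf2 h => ?_⟩
  have hv' : (100 : ℝ) ≤ v := by exact_mod_cast hv
  have hw' : 20 * (v : ℝ) ≤ w := by exact_mod_cast hw
  obtain ⟨g, hg⟩ : ∃ g : ℕ → ℝ, ∀ j, g j = f j - 1 := ⟨fun j => f j - 1, fun _ => rfl⟩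
  have hf : ∀ j, f j = 1 + g j := fun j => by
    rw [hg]
    ring
  have hga : ∀ j, |g j| ≤ 1001 / 1000 := fun j => by
    rw [abs_le, hg]
    constructor
    · linarith [hf0 j]
    · linarith [hf2 j]
  have hB' : B ≤ v / 1000 := by linarith
  have hgs : ∀ m m', m ≤ m' → |∑ j ∈ Ico m m', g j| ≤ B := fun m m' hm => by
    have := h m m' hm
    simpa only [hg] using this
  have hB0 : 0 ≤ B := (abs_nonneg _).trans (hgs 0 0 le_rfl)
  have hc := cubic g p q n v w hv hw hn hB' hga hgs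
  set V := Ico p (p + v) with hV
  set W := Ico q (q + w) with hW
  have cV : (V.card : ℝ) = v := by rw [hV, Nat.card_Ico, Nat.add_sub_cancel_left]
  have cW : (W.card : ℝ) = w := by rw [hW, Nat.card_Ico, Nat.add_sub_cancel_left]
  obtain ⟨s, hs⟩ : ∃ s : ℕ → ℕ → ℝ, ∀ i j, s i j = g (n - i - j) + g (n + 1 - i - j) := ⟨_, fun _ _ => rfl⟩
  have hsW : ∀ i ∈ V, |∑ j ∈ W, s i j| ≤ 2 * B := by
    intro i hi
    rw [hV, mem_Ico] at hi
    have e1 : ∑ j ∈ W, g (n - i - j) = ∑ j ∈ Ico (n - i + 1 - (q + w)) (n - i + 1 - q), g j :=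
      sum_Ico_reflect g q (by omega)
    have e2 : ∑ j ∈ W, g (n + 1 - i - j) = ∑ j ∈ Ico (n + 1 - i + 1 - (q + w)) (n + 1 - i + 1 - q), g j :=
      sum_Ico_reflect g q (by omega)
    simp only [hs]
    rw [sum_add_distrib, e1, e2]
    refine (abs_add_le _ _).trans ?_
    have := hgs (n - i + 1 - (q + w)) (n - i + 1 - q) (by omega)
    have := hgs (n + 1 - i + 1 - (q + w)) (n + 1 - i + 1 - q) (by omega)
    linarith
  have hsV : ∀ j ∈ W, |∑ i ∈ V, s i j| ≤ 2 * B := by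
    intro j hj
    rw [hW, mem_Ico] at hj
    have e1 : ∑ i ∈ V, g (n - i - j) = ∑ i ∈ Ico (n - j + 1 - (p + v)) (n - j + 1 - p), g i := by
      rw [← sum_Ico_reflect g p (by omega : p + v ≤ n - j + 1)]
      refine sum_congr rfl fun i _ => ?_
      congr 1
      omega
    have e2 : ∑ i ∈ V, g (n + 1 - i - j) = ∑ i ∈ Ico (n + 1 - j + 1 - (p + v)) (n + 1 - j + 1 - p), g i := by
      rw [← sum_Ico_reflect g p (by omega : p + v ≤ n + 1 - j + 1)]
      refine sum_congr rfl fun i _ => ?_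
      congr 1
      omega
    simp only [hs]
    rw [sum_add_distrib, e1, e2]
    refine (abs_add_le _ _).trans ?_
    have := hgs (n - j + 1 - (p + v)) (n - j + 1 - p) (by omega)
    have := hgs (n + 1 - j + 1 - (p + v)) (n + 1 - j + 1 - p) (by omega)
    linarith
  have hSV : |∑ i ∈ V, g i| ≤ B := hgs _ _ (by omega)
  have hSW : |∑ j ∈ W, g j| ≤ B := hgs _ _ (by omega)
  have key : ∑ i ∈ V, ∑ j ∈ W, f i * f j * (f (n - i - j) + f (n + 1 - i - j)) =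
      2 * (v * w) + 2 * w * (∑ i ∈ V, g i) + 2 * v * (∑ j ∈ W, g j) + 2 * ((∑ i ∈ V, g i) * ∑ j ∈ W, g j) +
        (∑ i ∈ V, ∑ j ∈ W, s i j) + (∑ i ∈ V, g i * ∑ j ∈ W, s i j) + (∑ j ∈ W, g j * ∑ i ∈ V, s i j) +
        ∑ i ∈ V, ∑ j ∈ W, g i * g j * (g (n - i - j) + g (n + 1 - i - j)) := by
    have e : ∀ i ∈ V, ∀ j ∈ W, f i * f j * (f (n - i - j) + f (n + 1 - i - j)) =
        2 + 2 * g i + 2 * g j + 2 * (g i * g j) + s i j + g i * s i j + g j * s i j +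
          g i * g j * (g (n - i - j) + g (n + 1 - i - j)) := by
      intro i _ j _
      rw [hf i, hf j, hf (n - i - j), hf (n + 1 - i - j), hs]
      ring
    rw [sum_congr rfl fun i hi => sum_congr rfl fun j hj => e i hi j hj]
    simp only [sum_add_distrib, sum_const, nsmul_eq_mul, ← mul_sum, ← sum_mul, cV, cW]
    have e3 : ∑ i ∈ V, ∑ j ∈ W, g j * s i j = ∑ j ∈ W, g j * ∑ i ∈ V, s i j := by
      rw [sum_comm]
      refine sum_congr rfl fun j _ => ?_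
      rw [mul_sum]
    rw [e3]
    ring
  have b1 : |∑ i ∈ V, ∑ j ∈ W, s i j| ≤ v * (2 * B) := by
    refine (abs_sum_le_sum_abs _ _).trans ((sum_le_card_nsmul _ _ _ hsW).trans_eq ?_)
    rw [nsmul_eq_mul, cV]
  have b2 : |∑ i ∈ V, g i * ∑ j ∈ W, s i j| ≤ v * (1001 / 1000 * (2 * B)) := by
    refine (abs_sum_le_sum_abs _ _).trans ((sum_le_card_nsmul _ _ (1001 / 1000 * (2 * B)) fun i hi => ?_).trans_eq ?_)
    · rw [abs_mul]
      exact mul_le_mul (hga i) (hsW i hi) (abs_nonneg _) (by norm_num)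
    · rw [nsmul_eq_mul, cV]
  have b3 : |∑ j ∈ W, g j * ∑ i ∈ V, s i j| ≤ w * (1001 / 1000 * (2 * B)) := by
    refine (abs_sum_le_sum_abs _ _).trans ((sum_le_card_nsmul _ _ (1001 / 1000 * (2 * B)) fun i hi => ?_).trans_eq ?_)
    · rw [abs_mul]
      exact mul_le_mul (hga i) (hsV i hi) (abs_nonneg _) (by norm_num)
    · rw [nsmul_eq_mul, cW]
  have b4 : |(∑ i ∈ V, g i) * ∑ j ∈ W, g j| ≤ B * B := by
    rw [abs_mul]
    exact mul_le_mul hSV hSW (abs_nonneg _) hB0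
  rw [key]
  have c1 := (abs_le.1 b1).1
  have c2 := (abs_le.1 b2).1
  have c3 := (abs_le.1 b3).1
  have c4 := (abs_le.1 b4).1
  have c5 := (abs_le.1 hc).1
  have c6 := (abs_le.1 hSV).1
  have c7 := (abs_le.1 hSW).1
  have hw0 : (0 : ℝ) < w := by linarith
  have d6 : -(w * B) ≤ w * ∑ i ∈ V, g i := by nlinarith
  have d7 : -(v * B) ≤ v * ∑ j ∈ W, g j := by nlinarith
  have e1 : w * B ≤ v * w / 1000 := by nlinarith
  have e2 : v * B ≤ v * w / 20000 := by nlinarith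
  have e3 : B * B ≤ v * w / 20000 := by nlinarith
  have e4 : 0 ≤ (v : ℝ) * w := by positivity
  nlinarith

end Pool.Agent.Helper59.PW
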